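import Pool.Agent.Q66.OS.Box

/-! Project OS of helper17, job PCN (helper66). Part 2: the characters counted in Dade's conjectures. -/

set_option autoImplicit false

open scoped Classical

noncomputable section

namespace Pool.Agent.Q66.OS

open Pool.Agent Pool.Agent.Helper884 Pool.Agent.H254R3.IN Pool.Agent.Q17.DC Pool.Agent.Q17.OS

section prd

variable {E₁ E₂ : Type} [Group E₁] [Group E₂]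

/-- the intersection of two products -/
def eL (G₁ H₁ : Subgroup E₁) (G₂ H₂ : Subgroup E₂) :
    ((G₁.prod G₂) ⊓ (H₁.prod H₂) : Subgroup (E₁ × E₂)) ≃*
      (G₁ ⊓ H₁ : Subgroup E₁) × (G₂ ⊓ H₂ : Subgroup E₂) where
  toFun x := (⟨x.1.1, x.2.1.1, x.2.2.1⟩, ⟨x.1.2, x.2.1.2, x.2.2.2⟩)
  invFun y := ⟨(y.1.1, y.2.1), ⟨y.1.2.1, y.2.2.1⟩, ⟨y.1.2.2, y.2.2.2⟩⟩
  left_inv _ := rfl
  right_inv _ := rfl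
  map_mul' _ _ := rfl

variable {G₁ H₁ : Subgroup E₁} {G₂ H₂ : Subgroup E₂}

/-- the product of two functions -/
def PP (ψ₁ : (G₁ ⊓ H₁ : Subgroup E₁) → ℂ) (ψ₂ : (G₂ ⊓ H₂ : Subgroup E₂) → ℂ) :
    ((G₁.prod G₂) ⊓ (H₁.prod H₂) : Subgroup (E₁ × E₂)) → ℂ :=
  fun x => bx ψ₁ ψ₂ (eL G₁ H₁ G₂ H₂ x)

theorem PP_symm (ψ₁ : (G₁ ⊓ H₁ : Subgroup E₁) → ℂ) (ψ₂ : (G₂ ⊓ H₂ : Subgroup E₂) → ℂ)
    (a : (G₁ ⊓ H₁ : Subgroup E₁)) (b : (G₂ ⊓ H₂ : Subgroup E₂)) :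
    PP ψ₁ ψ₂ ((eL G₁ H₁ G₂ H₂).symm (a, b)) = ψ₁ a * ψ₂ b := by
  unfold PP
  rw [MulEquiv.apply_symm_apply]
  rfl

theorem PP_one (ψ₁ : (G₁ ⊓ H₁ : Subgroup E₁) → ℂ) (ψ₂ : (G₂ ⊓ H₂ : Subgroup E₂) → ℂ) :
    PP ψ₁ ψ₂ 1 = ψ₁ 1 * ψ₂ 1 := by
  unfold PP
  rw [map_one]
  rfl

theorem PP_irr [Finite E₁] [Finite E₂] {ψ₁ : (G₁ ⊓ H₁ : Subgroup E₁) → ℂ}
    {ψ₂ : (G₂ ⊓ H₂ : Subgroup E₂) → ℂ} (h₁ : IsIrr ψ₁) (h₂ : IsIrr ψ₂) : IsIrr (PP ψ₁ ψ₂) := by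
  have := Fintype.ofFinite (G₁ ⊓ H₁ : Subgroup E₁)
  have := Fintype.ofFinite (G₂ ⊓ H₂ : Subgroup E₂)
  exact Q222.TC.irr_comp (eL G₁ H₁ G₂ H₂) (bx_irr h₁ h₂)

theorem irr_PP [Finite E₁] [Finite E₂]
    {ψ : ((G₁.prod G₂) ⊓ (H₁.prod H₂) : Subgroup (E₁ × E₂)) → ℂ} (h : IsIrr ψ) :
    ∃ (ψ₁ : (G₁ ⊓ H₁ : Subgroup E₁) → ℂ) (ψ₂ : (G₂ ⊓ H₂ : Subgroup E₂) → ℂ),
      IsIrr ψ₁ ∧ IsIrr ψ₂ ∧ ψ = PP ψ₁ ψ₂ := by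
  have := Fintype.ofFinite (G₁ ⊓ H₁ : Subgroup E₁)
  have := Fintype.ofFinite (G₂ ⊓ H₂ : Subgroup E₂)
  obtain ⟨f, g, hf, hg, hfg⟩ := irr_bx (Q222.TC.irr_comp (eL G₁ H₁ G₂ H₂).symm h)
  refine ⟨f, g, hf, hg, ?_⟩
  funext x
  have h1 := congrFun hfg (eL G₁ H₁ G₂ H₂ x)
  rw [MulEquiv.symm_apply_apply] at h1
  exact h1

theorem PP_inj [Finite E₁] [Finite E₂] {ψ₁ ψ₁' : (G₁ ⊓ H₁ : Subgroup E₁) → ℂ}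
    {ψ₂ ψ₂' : (G₂ ⊓ H₂ : Subgroup E₂) → ℂ} (h₁ : IsIrr ψ₁) (h₁' : IsIrr ψ₁') (h₂ : IsIrr ψ₂)
    (h₂' : IsIrr ψ₂') (h : PP ψ₁ ψ₂ = PP ψ₁' ψ₂') : ψ₁ = ψ₁' ∧ ψ₂ = ψ₂' := by
  have := Fintype.ofFinite (G₁ ⊓ H₁ : Subgroup E₁)
  have := Fintype.ofFinite (G₂ ⊓ H₂ : Subgroup E₂)
  apply bx_inj h₁ h₁' h₂ h₂'
  funext y
  have h1 := congrFun h ((eL G₁ H₁ G₂ H₂).symm y)
  unfold PP at h1
  rw [MulEquiv.apply_symm_apply] at h1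
  exact h1

theorem indc_PP [Finite E₁] [Finite E₂] (ψ₁ : (G₁ ⊓ H₁ : Subgroup E₁) → ℂ)
    (ψ₂ : (G₂ ⊓ H₂ : Subgroup E₂) → ℂ) (x₁ : E₁) (x₂ : E₂) :
    indc (G₁.prod G₂) ((G₁.prod G₂) ⊓ (H₁.prod H₂)) (PP ψ₁ ψ₂) (x₁, x₂) =
      indc G₁ (G₁ ⊓ H₁) ψ₁ x₁ * indc G₂ (G₂ ⊓ H₂) ψ₂ x₂ := by
  unfold indc
  let e : {y : ((G₁.prod G₂) ⊓ (H₁.prod H₂) : Subgroup (E₁ × E₂)) //
      ∃ g ∈ G₁.prod G₂, g * (x₁, x₂) * g⁻¹ = y} ≃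
      {y : (G₁ ⊓ H₁ : Subgroup E₁) // ∃ g ∈ G₁, g * x₁ * g⁻¹ = y} ×
      {y : (G₂ ⊓ H₂ : Subgroup E₂) // ∃ g ∈ G₂, g * x₂ * g⁻¹ = y} :=
    { toFun := fun y => (⟨(eL G₁ H₁ G₂ H₂ y.1).1, by
        obtain ⟨g, hg, h⟩ := y.2
        exact ⟨g.1, hg.1, congrArg Prod.fst h⟩⟩, ⟨(eL G₁ H₁ G₂ H₂ y.1).2, by
        obtain ⟨g, hg, h⟩ := y.2
        exact ⟨g.2, hg.2, congrArg Prod.snd h⟩⟩)
      invFun := fun y => ⟨(eL G₁ H₁ G₂ H₂).symm (y.1.1, y.2.1), by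
        obtain ⟨g, hg, h⟩ := y.1.2
        obtain ⟨g', hg', h'⟩ := y.2.2
        exact ⟨(g, g'), ⟨hg, hg'⟩, Prod.ext h h'⟩⟩
      left_inv := fun _ => rfl
      right_inv := fun _ => rfl }
  have h1 : (∑ᶠ y : {y : ((G₁.prod G₂) ⊓ (H₁.prod H₂) : Subgroup (E₁ × E₂)) //
      ∃ g ∈ G₁.prod G₂, g * (x₁, x₂) * g⁻¹ = y}, PP ψ₁ ψ₂ y / PP ψ₁ ψ₂ 1) =
      ∑ᶠ z : {y : (G₁ ⊓ H₁ : Subgroup E₁) // ∃ g ∈ G₁, g * x₁ * g⁻¹ = y} ×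
        {y : (G₂ ⊓ H₂ : Subgroup E₂) // ∃ g ∈ G₂, g * x₂ * g⁻¹ = y},
        (ψ₁ z.1 / ψ₁ 1) * (ψ₂ z.2 / ψ₂ 1) := by
    rw [← finsum_comp_equiv e]
    refine finsum_congr fun y => ?_
    rw [PP_one]
    have h2 : PP ψ₁ ψ₂ y = ψ₁ (e y).1 * ψ₂ (e y).2 := rfl
    rw [h2, mul_div_mul_comm]
  rw [h1]
  have i1 := Fintype.ofFinite {y : (G₁ ⊓ H₁ : Subgroup E₁) // ∃ g ∈ G₁, g * x₁ * g⁻¹ = y}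
  have i2 := Fintype.ofFinite {y : (G₂ ⊓ H₂ : Subgroup E₂) // ∃ g ∈ G₂, g * x₂ * g⁻¹ = y}
  rw [finsum_eq_sum_of_fintype, finsum_eq_sum_of_fintype, finsum_eq_sum_of_fintype,
    Fintype.sum_prod_type, Finset.sum_mul_sum]

theorem indc_one {G H : Subgroup E₁} {ψ : (G ⊓ H : Subgroup E₁) → ℂ} (h : ψ 1 ≠ 0) :
    indc G (G ⊓ H) ψ (1 : E₁) = 1 := by
  unfold indc
  have h1 : ∀ y : {y : (G ⊓ H : Subgroup E₁) // ∃ g ∈ G, g * (1 : E₁) * g⁻¹ = y}, y.1 = 1 := by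
    rintro ⟨y, g, hg, h⟩
    apply Subtype.ext
    rw [← h]
    simp
  let u : Unique {y : (G ⊓ H : Subgroup E₁) // ∃ g ∈ G, g * (1 : E₁) * g⁻¹ = y} :=
    { default := ⟨1, 1, G.one_mem, by simp⟩
      uniq := fun y => Subtype.ext ((h1 y).trans rfl) }
  rw [finsum_unique]
  have h2 : ((default : {y : (G ⊓ H : Subgroup E₁) // ∃ g ∈ G, g * (1 : E₁) * g⁻¹ = y}) :
    (G ⊓ H : Subgroup E₁)) = 1 := rfl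
  rw [h2, div_self h]

theorem omega_PB {χ : G₁.prod G₂ → ℂ} {χ₁ : G₁ → ℂ} {χ₂ : G₂ → ℂ}
    (h : ∀ x : G₁.prod G₂, χ x = χ₁ ⟨x.1.1, x.2.1⟩ * χ₂ ⟨x.1.2, x.2.2⟩) (x : G₁.prod G₂) :
    omega χ x = omega χ₁ ⟨x.1.1, x.2.1⟩ * omega χ₂ ⟨x.1.2, x.2.2⟩ := by
  have h1 : χ = fun x => bx χ₁ χ₂ (Subgroup.prodEquiv G₁ G₂ x) := by
    funext x
    exact h x
  rw [h1, Q222.TC.omega_comp, ← omega_bx]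
  rfl

/-- the condition on the blocks -/
theorem ind_iff [Finite E₁] [Finite E₂] (O : ValuationSubring ℂ) {B₁ : Set (G₁ → ℂ)}
    {B₂ : Set (G₂ → ℂ)} (hB₁ : IsBlock O B₁) (hB₂ : IsBlock O B₂)
    {ψ₁ : (G₁ ⊓ H₁ : Subgroup E₁) → ℂ} {ψ₂ : (G₂ ⊓ H₂ : Subgroup E₂) → ℂ} (h₁ : IsIrr ψ₁)
    (h₂ : IsIrr ψ₂) :
    (∀ χ ∈ PB B₁ B₂, ∀ x : G₁.prod G₂, omega χ x -
        indc (G₁.prod G₂) ((G₁.prod G₂) ⊓ (H₁.prod H₂)) (PP ψ₁ ψ₂) (x : E₁ × E₂) ∈ O.nonunits) ↔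
      (∀ χ ∈ B₁, ∀ x : G₁, omega χ x - indc G₁ (G₁ ⊓ H₁) ψ₁ (x : E₁) ∈ O.nonunits) ∧
      (∀ χ ∈ B₂, ∀ x : G₂, omega χ x - indc G₂ (G₂ ⊓ H₂) ψ₂ (x : E₂) ∈ O.nonunits) := by
  have hmem : ∀ {G : Type} [Group G] {B : Set (G → ℂ)}, IsBlock O B → ∃ χ ∈ B, IsIrr χ := by
    intro G _ B hB
    obtain ⟨χ₀, h0, rfl⟩ := hB
    refine ⟨χ₀, ⟨h0, fun x => ?_⟩, h0⟩
    rw [sub_self]
    exact (ValuationSubring.mem_nonunits_iff O).2 (by rw [map_zero]; exact zero_lt_one)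
  have hirr : ∀ {G : Type} [Group G] {B : Set (G → ℂ)}, IsBlock O B → ∀ χ ∈ B, IsIrr χ := by
    intro G _ B hB χ hχ
    obtain ⟨χ₀, h0, rfl⟩ := hB
    exact hχ.1
  constructor
  · intro h
    constructor
    · intro χ₁ hχ₁ x₁
      obtain ⟨χ₂, hχ₂, hχ₂i⟩ := hmem hB₂
      have h3 := h (fun x => χ₁ ⟨x.1.1, x.2.1⟩ * χ₂ ⟨x.1.2, x.2.2⟩)
        ⟨χ₁, hχ₁, χ₂, hχ₂, fun _ => rfl⟩ ⟨(x₁.1, 1), x₁.2, G₂.one_mem⟩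
      rw [omega_PB (fun _ => rfl), indc_PP, indc_one h₂.one_ne, mul_one] at h3
      have h4 : omega χ₂ (1 : G₂) = 1 := omega_one hχ₂i.one_ne
      have h5 : omega χ₂ ⟨(((⟨(x₁.1, 1), x₁.2, G₂.one_mem⟩ : G₁.prod G₂)) : E₁ × E₂).2,
        G₂.one_mem⟩ = 1 := h4
      rw [h5, mul_one] at h3
      exact h3
    · intro χ₂ hχ₂ x₂
      obtain ⟨χ₁, hχ₁, hχ₁i⟩ := hmem hB₁
      have h3 := h (fun x => χ₁ ⟨x.1.1, x.2.1⟩ * χ₂ ⟨x.1.2, x.2.2⟩)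
        ⟨χ₁, hχ₁, χ₂, hχ₂, fun _ => rfl⟩ ⟨(1, x₂.1), G₁.one_mem, x₂.2⟩
      rw [omega_PB (fun _ => rfl), indc_PP, indc_one h₁.one_ne, one_mul] at h3
      have h4 : omega χ₁ (1 : G₁) = 1 := omega_one hχ₁i.one_ne
      have h5 : omega χ₁ ⟨(((⟨(1, x₂.1), G₁.one_mem, x₂.2⟩ : G₁.prod G₂)) : E₁ × E₂).1,
        G₁.one_mem⟩ = 1 := h4
      rw [h5, one_mul] at h3
      exact h3
  · rintro ⟨k₁, k₂⟩ χ ⟨χ₁, hχ₁, χ₂, hχ₂, hχ⟩ x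
    have hx : indc (G₁.prod G₂) ((G₁.prod G₂) ⊓ (H₁.prod H₂)) (PP ψ₁ ψ₂) (x : E₁ × E₂) =
        indc G₁ (G₁ ⊓ H₁) ψ₁ x.1.1 * indc G₂ (G₂ ⊓ H₂) ψ₂ x.1.2 := indc_PP ψ₁ ψ₂ x.1.1 x.1.2
    rw [omega_PB hχ, hx]
    set a := omega χ₁ ⟨x.1.1, x.2.1⟩ with ha
    set b := omega χ₂ ⟨x.1.2, x.2.2⟩ with hb
    have m1 := k₁ χ₁ hχ₁ ⟨x.1.1, x.2.1⟩
    have m2 := k₂ χ₂ hχ₂ ⟨x.1.2, x.2.2⟩
    simp only at m1 m2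
    rw [← ha] at m1
    rw [← hb] at m2
    set c := indc G₁ (G₁ ⊓ H₁) ψ₁ x.1.1 with hc
    set e := indc G₂ (G₂ ⊓ H₂) ψ₂ x.1.2 with he
    have hbO : b ∈ O := (hirr hB₂ χ₂ hχ₂).omega_mem O _
    have haO : a ∈ O := (hirr hB₁ χ₁ hχ₁).omega_mem O _
    have hcO : c ∈ O := by
      have h5 : a - (a - c) ∈ O := O.sub_mem haO (ValuationSubring.nonunits_subset m1)
      rwa [sub_sub_cancel] at h5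
    have e1 : a * b - c * e = (a - c) * b + c * (b - e) := by ring
    rw [e1]
    rw [ValuationSubring.mem_nonunits_iff] at m1 m2 ⊢
    refine lt_of_le_of_lt (O.valuation.map_add _ _) (max_lt ?_ ?_)
    · rw [map_mul]
      have h6 : O.valuation b ≤ 1 := (O.valuation_le_one_iff b).2 hbO
      calc O.valuation (a - c) * O.valuation b ≤ O.valuation (a - c) * 1 := by gcongr
        _ < 1 := by rw [mul_one]; exact m1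
    · rw [map_mul]
      have h6 : O.valuation c ≤ 1 := (O.valuation_le_one_iff c).2 hcO
      calc O.valuation c * O.valuation (b - e) ≤ 1 * O.valuation (b - e) := by gcongr
        _ < 1 := by rw [one_mul]; exact m2

/-- the condition on the central character -/
theorem lin_iff {Z₁ : Subgroup E₁} {Z₂ : Subgroup E₂} {lam₁ : E₁ → ℂ} {lam₂ : E₂ → ℂ}
    (hl₁ : lam₁ 1 = 1) (hl₂ : lam₂ 1 = 1)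
    {ψ₁ : (G₁ ⊓ H₁ : Subgroup E₁) → ℂ} {ψ₂ : (G₂ ⊓ H₂ : Subgroup E₂) → ℂ} (h₁ : ψ₁ 1 ≠ 0)
    (h₂ : ψ₂ 1 ≠ 0) :
    (∀ x y : ((G₁.prod G₂) ⊓ (H₁.prod H₂) : Subgroup (E₁ × E₂)), (x : E₁ × E₂) ∈ Z₁.prod Z₂ →
        PP ψ₁ ψ₂ (x * y) = (fun z : E₁ × E₂ => lam₁ z.1 * lam₂ z.2) x * PP ψ₁ ψ₂ y) ↔
      (∀ x y : (G₁ ⊓ H₁ : Subgroup E₁), (x : E₁) ∈ Z₁ → ψ₁ (x * y) = lam₁ x * ψ₁ y) ∧
      (∀ x y : (G₂ ⊓ H₂ : Subgroup E₂), (x : E₂) ∈ Z₂ → ψ₂ (x * y) = lam₂ x * ψ₂ y) := by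
  constructor
  · intro h
    constructor
    · intro x y hx
      have h3 := h ((eL G₁ H₁ G₂ H₂).symm (x, 1)) ((eL G₁ H₁ G₂ H₂).symm (y, 1))
        ⟨hx, Z₂.one_mem⟩
      rw [← map_mul, Prod.mk_mul_mk, PP_symm, PP_symm, mul_one] at h3
      have e1 : (fun z : E₁ × E₂ => lam₁ z.1 * lam₂ z.2)
          (((eL G₁ H₁ G₂ H₂).symm (x, 1) : ((G₁.prod G₂) ⊓ (H₁.prod H₂) : Subgroup (E₁ × E₂))) :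
            E₁ × E₂) = lam₁ x := by
        change lam₁ x * lam₂ 1 = lam₁ x
        rw [hl₂, mul_one]
      rw [e1, ← mul_assoc] at h3
      exact mul_right_cancel₀ h₂ h3
    · intro x y hx
      have h3 := h ((eL G₁ H₁ G₂ H₂).symm (1, x)) ((eL G₁ H₁ G₂ H₂).symm (1, y))
        ⟨Z₁.one_mem, hx⟩
      rw [← map_mul, Prod.mk_mul_mk, PP_symm, PP_symm, mul_one] at h3
      have e1 : (fun z : E₁ × E₂ => lam₁ z.1 * lam₂ z.2)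
          (((eL G₁ H₁ G₂ H₂).symm (1, x) : ((G₁.prod G₂) ⊓ (H₁.prod H₂) : Subgroup (E₁ × E₂))) :
            E₁ × E₂) = lam₂ x := by
        change lam₁ 1 * lam₂ x = lam₂ x
        rw [hl₁, one_mul]
      rw [e1, mul_left_comm] at h3
      exact mul_left_cancel₀ h₁ h3
  · rintro ⟨k₁, k₂⟩ x y hx
    have e1 := k₁ (eL G₁ H₁ G₂ H₂ x).1 (eL G₁ H₁ G₂ H₂ y).1 hx.1
    have e2 := k₂ (eL G₁ H₁ G₂ H₂ x).2 (eL G₁ H₁ G₂ H₂ y).2 hx.2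
    have e3 : PP ψ₁ ψ₂ (x * y) = ψ₁ ((eL G₁ H₁ G₂ H₂ x).1 * (eL G₁ H₁ G₂ H₂ y).1) *
        ψ₂ ((eL G₁ H₁ G₂ H₂ x).2 * (eL G₁ H₁ G₂ H₂ y).2) := by
      unfold PP
      rw [map_mul]
      rfl
    rw [e3, e1, e2]
    change lam₁ x.1.1 * _ * (lam₂ x.1.2 * _) = lam₁ x.1.1 * lam₂ x.1.2 * (_ * _)
    rw [mul_mul_mul_comm]

/-- the set in `stab` -/
def St {E : Type} [Group E] (G H : Subgroup E) (ψ : (G ⊓ H : Subgroup E) → ℂ) : Set E :=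
  {e : E | ∃ g ∈ G, ∃ h ∈ H, e = g * h ∧
    ∀ x x' : (G ⊓ H : Subgroup E), (x' : E) = h * x * h⁻¹ → ψ x' = ψ x}

theorem St_nonempty {E : Type} [Group E] (G H : Subgroup E) (ψ : (G ⊓ H : Subgroup E) → ℂ) :
    (1 : E) ∈ St G H ψ := by
  refine ⟨1, G.one_mem, 1, H.one_mem, by simp, fun x x' h => ?_⟩
  have : x' = x := Subtype.ext (by rw [h]; simp)
  rw [this]

theorem St_prod {ψ₁ : (G₁ ⊓ H₁ : Subgroup E₁) → ℂ} {ψ₂ : (G₂ ⊓ H₂ : Subgroup E₂) → ℂ}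
    (h₁ : ψ₁ 1 ≠ 0) (h₂ : ψ₂ 1 ≠ 0) :
    St (G₁.prod G₂) (H₁.prod H₂) (PP ψ₁ ψ₂) = St G₁ H₁ ψ₁ ×ˢ St G₂ H₂ ψ₂ := by
  ext e
  constructor
  · rintro ⟨g, hg, h, hh, he, hinv⟩
    refine ⟨⟨g.1, hg.1, h.1, hh.1, congrArg Prod.fst he, fun x x' hx => ?_⟩,
      ⟨g.2, hg.2, h.2, hh.2, congrArg Prod.snd he, fun x x' hx => ?_⟩⟩
    · have h3 := hinv ((eL G₁ H₁ G₂ H₂).symm (x, 1)) ((eL G₁ H₁ G₂ H₂).symm (x', 1))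
        (Prod.ext hx (by
          change (1 : E₂) = h.2 * 1 * h.2⁻¹
          simp))
      rw [PP_symm, PP_symm] at h3
      exact mul_right_cancel₀ h₂ h3
    · have h3 := hinv ((eL G₁ H₁ G₂ H₂).symm (1, x)) ((eL G₁ H₁ G₂ H₂).symm (1, x'))
        (Prod.ext (by
          change (1 : E₁) = h.1 * 1 * h.1⁻¹
          simp) hx)
      rw [PP_symm, PP_symm] at h3
      exact mul_left_cancel₀ h₁ h3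
  · rintro ⟨⟨g, hg, h, hh, he, hinv⟩, ⟨g', hg', h', hh', he', hinv'⟩⟩
    refine ⟨(g, g'), ⟨hg, hg'⟩, (h, h'), ⟨hh, hh'⟩, Prod.ext he he', fun x x' hx => ?_⟩
    have k1 := hinv (eL G₁ H₁ G₂ H₂ x).1 (eL G₁ H₁ G₂ H₂ x').1 (congrArg Prod.fst hx)
    have k2 := hinv' (eL G₁ H₁ G₂ H₂ x).2 (eL G₁ H₁ G₂ H₂ x').2 (congrArg Prod.snd hx)
    change ψ₁ (eL G₁ H₁ G₂ H₂ x').1 * ψ₂ (eL G₁ H₁ G₂ H₂ x').2 =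
      ψ₁ (eL G₁ H₁ G₂ H₂ x).1 * ψ₂ (eL G₁ H₁ G₂ H₂ x).2
    rw [k1, k2]

theorem stab_iff {U₁ : Set E₁} {U₂ : Set E₂} {ψ₁ : (G₁ ⊓ H₁ : Subgroup E₁) → ℂ}
    {ψ₂ : (G₂ ⊓ H₂ : Subgroup E₂) → ℂ} (h₁ : ψ₁ 1 ≠ 0) (h₂ : ψ₂ 1 ≠ 0) :
    St (G₁.prod G₂) (H₁.prod H₂) (PP ψ₁ ψ₂) = U₁ ×ˢ U₂ ↔ St G₁ H₁ ψ₁ = U₁ ∧ St G₂ H₂ ψ₂ = U₂ := by
  rw [St_prod h₁ h₂]
  exact Set.prod_eq_prod_iff_of_nonempty ⟨(1, 1), St_nonempty _ _ _, St_nonempty _ _ _⟩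

/-- the defect of a character -/
theorem def_ex {E : Type} [Group E] [Finite E] (p : ℕ) {G H : Subgroup E}
    {ψ : (G ⊓ H : Subgroup E) → ℂ} (h : IsIrr ψ) : ∃ q n : ℕ, (n : ℂ) = ψ 1 ∧ n ≠ 0 ∧
      (Nat.card (G ⊓ H : Subgroup E)).factorization p = q + n.factorization p := by
  have i1 := Fintype.ofFinite (G ⊓ H : Subgroup E)
  obtain ⟨n, hn0, hn⟩ := h.deg
  have h1 : n ∣ Nat.card (G ⊓ H : Subgroup E) := Y63.AWC.deg_dvd h hn.symm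
  have h2 : n.factorization p ≤ (Nat.card (G ⊓ H : Subgroup E)).factorization p :=
    (Nat.factorization_le_iff_dvd hn0.ne' Nat.card_pos.ne').2 h1 p
  exact ⟨(Nat.card (G ⊓ H : Subgroup E)).factorization p - n.factorization p, n, hn, hn0.ne',
    by omega⟩

theorem card_L [Finite E₁] [Finite E₂] :
    Nat.card ((G₁.prod G₂) ⊓ (H₁.prod H₂) : Subgroup (E₁ × E₂)) =
      Nat.card (G₁ ⊓ H₁ : Subgroup E₁) * Nat.card (G₂ ⊓ H₂ : Subgroup E₂) := by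
  rw [← Nat.card_prod]
  exact Nat.card_congr (eL G₁ H₁ G₂ H₂).toEquiv

theorem def_iff [Finite E₁] [Finite E₂] (p d : ℕ) {ψ₁ : (G₁ ⊓ H₁ : Subgroup E₁) → ℂ}
    {ψ₂ : (G₂ ⊓ H₂ : Subgroup E₂) → ℂ} (h₁ : IsIrr ψ₁) (h₂ : IsIrr ψ₂) :
    (∃ n : ℕ, (n : ℂ) = PP ψ₁ ψ₂ 1 ∧
      (Nat.card ((G₁.prod G₂) ⊓ (H₁.prod H₂) : Subgroup (E₁ × E₂))).factorization p =
        d + n.factorization p) ↔
    ∃ q, q ≤ d ∧ (∃ n : ℕ, (n : ℂ) = ψ₁ 1 ∧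
      (Nat.card (G₁ ⊓ H₁ : Subgroup E₁)).factorization p = q + n.factorization p) ∧
      (∃ n : ℕ, (n : ℂ) = ψ₂ 1 ∧
      (Nat.card (G₂ ⊓ H₂ : Subgroup E₂)).factorization p = (d - q) + n.factorization p) := by
  obtain ⟨q₁, n₁, a₁, a₂, a₃⟩ := def_ex p h₁
  obtain ⟨q₂, n₂, b₁, b₂, b₃⟩ := def_ex p h₂
  have c₁ : Nat.card (G₁ ⊓ H₁ : Subgroup E₁) ≠ 0 := Nat.card_pos.ne'
  have c₂ : Nat.card (G₂ ⊓ H₂ : Subgroup E₂) ≠ 0 := Nat.card_pos.ne'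
  have e1 : (Nat.card (G₁ ⊓ H₁ : Subgroup E₁) *
      Nat.card (G₂ ⊓ H₂ : Subgroup E₂)).factorization p =
      (Nat.card (G₁ ⊓ H₁ : Subgroup E₁)).factorization p +
      (Nat.card (G₂ ⊓ H₂ : Subgroup E₂)).factorization p := by
    rw [Nat.factorization_mul c₁ c₂]
    rfl
  have e2 : (n₁ * n₂).factorization p = n₁.factorization p + n₂.factorization p := by
    rw [Nat.factorization_mul a₂ b₂]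
    rfl
  have hu₁ : ∀ n : ℕ, (n : ℂ) = ψ₁ 1 → n = n₁ := fun n hn => by
    have : (n : ℂ) = (n₁ : ℂ) := hn.trans a₁.symm
    exact_mod_cast this
  have hu₂ : ∀ n : ℕ, (n : ℂ) = ψ₂ 1 → n = n₂ := fun n hn => by
    have : (n : ℂ) = (n₂ : ℂ) := hn.trans b₁.symm
    exact_mod_cast this
  rw [PP_one, card_L, e1]
  constructor
  · rintro ⟨n, hn, hv⟩
    have hn2 : n = n₁ * n₂ := by
      have : (n : ℂ) = ((n₁ * n₂ : ℕ) : ℂ) := by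
        rw [hn, ← a₁, ← b₁]
        push_cast
        rfl
      exact_mod_cast this
    rw [hn2, e2] at hv
    exact ⟨q₁, by omega, ⟨n₁, a₁, a₃⟩, ⟨n₂, b₁, by omega⟩⟩
  · rintro ⟨q, hq, ⟨n, hn, hv⟩, ⟨n', hn', hv'⟩⟩
    rw [hu₁ n hn] at hv
    rw [hu₂ n' hn'] at hv'
    refine ⟨n₁ * n₂, ?_, ?_⟩
    · rw [← a₁, ← b₁]
      push_cast
      rfl
    · rw [e2]
      omega

end prd

/-- **Job PCN.** -/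
theorem t_PCN : S_PCN := by
  intro p _ O hp E₁ E₂ _ _ _ _ G₁ Z₁ G₂ Z₂ lam₁ lam₂ hl₁ hl₂ B₁ B₂ hB₁ hB₂ U₁ U₂ d H₁ H₂
  have key : ∀ {ψ₁ : (G₁ ⊓ H₁ : Subgroup E₁) → ℂ} {ψ₂ : (G₂ ⊓ H₂ : Subgroup E₂) → ℂ},
      IsIrr ψ₁ → IsIrr ψ₂ → (Cnt p O (G₁.prod G₂) (Z₁.prod Z₂)
        (fun x => lam₁ x.1 * lam₂ x.2) (PB B₁ B₂) (U₁ ×ˢ U₂) d (H₁.prod H₂) (PP ψ₁ ψ₂) ↔
      ∃ q, q ≤ d ∧ Cnt p O G₁ Z₁ lam₁ B₁ U₁ q H₁ ψ₁ ∧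
        Cnt p O G₂ Z₂ lam₂ B₂ U₂ (d - q) H₂ ψ₂) := by
    intro ψ₁ ψ₂ h₁ h₂
    constructor
    · rintro ⟨-, c2, c3, c4, c5⟩
      obtain ⟨i1, i2⟩ := (ind_iff O hB₁ hB₂ h₁ h₂).1 c2
      obtain ⟨l1, l2⟩ := (lin_iff hl₁ hl₂ h₁.one_ne h₂.one_ne).1 c3
      obtain ⟨q, hq, d1, d2⟩ := (def_iff p d h₁ h₂).1 c4
      obtain ⟨s1, s2⟩ := (stab_iff h₁.one_ne h₂.one_ne).1 c5
      exact ⟨q, hq, ⟨h₁, i1, l1, d1, s1⟩, ⟨h₂, i2, l2, d2, s2⟩⟩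
    · rintro ⟨q, hq, ⟨-, i1, l1, d1, s1⟩, ⟨-, i2, l2, d2, s2⟩⟩
      exact ⟨PP_irr h₁ h₂, (ind_iff O hB₁ hB₂ h₁ h₂).2 ⟨i1, i2⟩,
        (lin_iff hl₁ hl₂ h₁.one_ne h₂.one_ne).2 ⟨l1, l2⟩,
        (def_iff p d h₁ h₂).2 ⟨q, hq, d1, d2⟩, (stab_iff h₁.one_ne h₂.one_ne).2 ⟨s1, s2⟩⟩
  have fin : ∀ {E : Type} [Group E] [Fintype E] (G Z : Subgroup E) (lam : E → ℂ)
      (B : Set (G → ℂ)) (U : Set E) (q : ℕ) (H : Subgroup E),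
      Finite {ψ : (G ⊓ H : Subgroup E) → ℂ // Cnt p O G Z lam B U q H ψ} := by
    intro E _ _ G Z lam B U q H
    have i1 := Fintype.ofFinite (G ⊓ H : Subgroup E)
    have h1 := IC.irr_finite (G := (G ⊓ H : Subgroup E))
    exact (h1.subset fun ψ (hψ : Cnt p O G Z lam B U q H ψ) => hψ.irr).to_subtype
  unfold cn
  rw [Finset.sum_range]
  have e0 : ∀ q : Fin (d + 1),
      Nat.card {ψ : (G₁ ⊓ H₁ : Subgroup E₁) → ℂ // Cnt p O G₁ Z₁ lam₁ B₁ U₁ q H₁ ψ} *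
      Nat.card {ψ : (G₂ ⊓ H₂ : Subgroup E₂) → ℂ // Cnt p O G₂ Z₂ lam₂ B₂ U₂ (d - q) H₂ ψ} =
      Nat.card ({ψ : (G₁ ⊓ H₁ : Subgroup E₁) → ℂ // Cnt p O G₁ Z₁ lam₁ B₁ U₁ q H₁ ψ} ×
        {ψ : (G₂ ⊓ H₂ : Subgroup E₂) → ℂ // Cnt p O G₂ Z₂ lam₂ B₂ U₂ (d - q) H₂ ψ}) :=
    fun q => (Nat.card_prod _ _).symm
  rw [Finset.sum_congr rfl fun q _ => e0 q]
  have f1 : ∀ q : Fin (d + 1),
      Finite ({ψ : (G₁ ⊓ H₁ : Subgroup E₁) → ℂ // Cnt p O G₁ Z₁ lam₁ B₁ U₁ q H₁ ψ} ×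
        {ψ : (G₂ ⊓ H₂ : Subgroup E₂) → ℂ // Cnt p O G₂ Z₂ lam₂ B₂ U₂ (d - q) H₂ ψ}) := by
    intro q
    have := fin G₁ Z₁ lam₁ B₁ U₁ q H₁
    have := fin G₂ Z₂ lam₂ B₂ U₂ (d - q) H₂
    infer_instance
  rw [← Nat.card_sigma]
  symm
  refine Nat.card_congr (Equiv.ofBijective (fun s => ⟨PP s.2.1.1 s.2.2.1,
    (key s.2.1.2.irr s.2.2.2.irr).2 ⟨s.1, Nat.lt_succ_iff.mp s.1.2, s.2.1.2, s.2.2.2⟩⟩) ⟨?_, ?_⟩)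
  · rintro ⟨q, ⟨ψ₁, c₁⟩, ⟨ψ₂, c₂⟩⟩ ⟨q', ⟨ψ₁', c₁'⟩, ⟨ψ₂', c₂'⟩⟩ h
    have h' : PP ψ₁ ψ₂ = PP ψ₁' ψ₂' := congrArg Subtype.val h
    obtain ⟨h1, h2⟩ := PP_inj c₁.irr c₁'.irr c₂.irr c₂'.irr h'
    subst h1
    subst h2
    have hq : q = q' := by
      obtain ⟨n, hn, hv⟩ := c₁.defect
      obtain ⟨n', hn', hv'⟩ := c₁'.defect
      have : n = n' := by
        have h3 : (n : ℂ) = (n' : ℂ) := hn.trans hn'.symm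
        exact_mod_cast h3
      subst this
      apply Fin.ext
      omega
    subst hq
    rfl
  · rintro ⟨ψ, c⟩
    obtain ⟨ψ₁, ψ₂, h₁, h₂, rfl⟩ := irr_PP c.irr
    obtain ⟨q, hq, c₁, c₂⟩ := (key h₁ h₂).1 c
    exact ⟨⟨⟨q, Nat.lt_succ_iff.mpr hq⟩, ⟨ψ₁, c₁⟩, ⟨ψ₂, c₂⟩⟩, rfl⟩

end Pool.Agent.Q66.OS
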