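import Pool.Agent.Q17.OS.Stm
import Pool.Agent.Y63.AWC.Deg
import Pool.Agent.Q222.TC.TBC
import Pool.Agent.Q17.TC.All

/-! Project OS of helper17, job PCN (helper66). Part 1: the characters of a product of two groups. -/

set_option autoImplicit false

open scoped Classical

noncomputable section

namespace Pool.Agent.Q66.OS

open Pool.Agent Pool.Agent.Helper884 Pool.Agent.H254R3.IN Pool.Agent.Q17.DC Pool.Agent.Q17.OS
open Pool.Agent.Q17.TC (t_IRN t_HOM)

section box

variable {A B : Type} [Group A] [Group B]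

/-- the external product of two functions -/
def bx (f : A → ℂ) (g : B → ℂ) : A × B → ℂ := fun x => f x.1 * g x.2

theorem B_bx [Fintype A] [Fintype B] (f f' : A → ℂ) (g g' : B → ℂ) :
    IC.B (bx f g) (bx f' g') = IC.B f f' * IC.B g g' := by
  unfold IC.B bx
  rw [Fintype.sum_prod_type, Nat.card_prod, Nat.cast_mul, mul_inv, mul_mul_mul_comm,
    Finset.sum_mul_sum]
  congr 1
  refine Finset.sum_congr rfl fun a _ => Finset.sum_congr rfl fun b _ => ?_
  simp only [Prod.fst_inv, Prod.snd_inv]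
  ring

theorem bx_irr [Fintype A] [Fintype B] {f : A → ℂ} {g : B → ℂ} (hf : IsIrr f) (hg : IsIrr g) :
    IsIrr (bx f g) := by
  have h0 : IC.B (bx f g) (bx f g) = 1 := by
    have h1 := IC.B_irr (chi := f) (psi := f) hf hf
    have h2 := IC.B_irr (chi := g) (psi := g) hg hg
    rw [if_pos rfl] at h1 h2
    rw [B_bx, h1, h2, one_mul]
  obtain ⟨V, _, _, _, ρ, hr, rfl⟩ := hf
  obtain ⟨W, _, _, _, σ, hs, rfl⟩ := hg
  let ρ' : Representation ℂ (A × B) V := ρ.comp (MonoidHom.fst A B)
  let σ' : Representation ℂ (A × B) W := σ.comp (MonoidHom.snd A B)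
  have hch : (Representation.tprod ρ' σ').character = bx ρ.character σ.character := by
    rw [Representation.char_tensor]
    rfl
  rw [← hch] at h0 ⊢
  exact t_IRN t_HOM (A × B) _ (Representation.tprod ρ' σ') h0

/-- the function `δ` -/
def dl (G : Type) [Group G] (g : G) : ℂ := if g = 1 then 1 else 0

theorem dl_class (G : Type) [Group G] [Fintype G] : IC.IsClass (dl G) := by
  intro g y
  unfold dl
  by_cases h : g = 1
  · rw [h]
    simp
  · rw [if_neg h, if_neg]
    intro h'
    apply h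
    have := congrArg (fun z => y⁻¹ * z * y) h'
    simpa [mul_assoc] using this

theorem B_dl (H : Type) [Group H] [Fintype H] (θ : H → ℂ) :
    IC.B (dl H) θ = (Nat.card H : ℂ)⁻¹ * θ 1 := by
  unfold IC.B dl
  congr 1
  rw [Finset.sum_eq_single 1]
  · simp
  · intro b _ hb
    rw [if_neg hb, zero_mul]
  · intro h
    exact absurd (Finset.mem_univ _) h

theorem dl_prod [Fintype A] [Fintype B] : dl (A × B) = ∑ f ∈ IC.Irr A, ∑ g ∈ IC.Irr B,
    (IC.B (dl A) f * IC.B (dl B) g) • bx f g := by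
  funext m
  have h1 : dl (A × B) m = dl A m.1 * dl B m.2 := by
    unfold dl
    by_cases h : m.1 = 1
    · by_cases h' : m.2 = 1
      · have hm : m = 1 := Prod.ext h h'
        rw [if_pos h, if_pos h', if_pos hm, one_mul]
      · have hm : m ≠ 1 := fun hm => h' (by rw [hm]; rfl)
        rw [if_neg h', if_neg hm, mul_zero]
    · have hm : m ≠ 1 := fun hm => h (by rw [hm]; rfl)
      rw [if_neg h, if_neg hm, zero_mul]
  have h2 : dl A m.1 = ∑ f ∈ IC.Irr A, IC.B (dl A) f * f m.1 := by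
    have := congrFun (IC.expand (dl A) (dl_class A)) m.1
    rw [this, Finset.sum_apply]
    rfl
  have h3 : dl B m.2 = ∑ g ∈ IC.Irr B, IC.B (dl B) g * g m.2 := by
    have := congrFun (IC.expand (dl B) (dl_class B)) m.2
    rw [this, Finset.sum_apply]
    rfl
  rw [h1, h2, h3, Finset.sum_mul_sum, Finset.sum_apply]
  refine Finset.sum_congr rfl fun f _ => ?_
  rw [Finset.sum_apply]
  refine Finset.sum_congr rfl fun g _ => ?_
  simp only [Pi.smul_apply, smul_eq_mul, bx]
  ring

theorem irr_bx [Fintype A] [Fintype B] {θ : A × B → ℂ} (hθ : IsIrr θ) :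
    ∃ (f : A → ℂ) (g : B → ℂ), IsIrr f ∧ IsIrr g ∧ θ = bx f g := by
  by_contra hcon
  push Not at hcon
  have h1 : IC.B (dl (A × B)) θ = 0 := by
    rw [dl_prod, IC.B_sum_left]
    apply Finset.sum_eq_zero
    intro f hf
    rw [IC.B_sum_left]
    apply Finset.sum_eq_zero
    intro g hg
    rw [IC.B_smul_left]
    have hf' : IsIrr f := IC.mem_Irr.1 hf
    have hg' : IsIrr g := IC.mem_Irr.1 hg
    have h2 := IC.B_irr (chi := bx f g) (psi := θ) (bx_irr hf' hg') hθ
    rw [h2, if_neg (fun h => hcon f g hf' hg' h.symm), mul_zero]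
  rw [B_dl] at h1
  rcases mul_eq_zero.1 h1 with h | h
  · exact inv_ne_zero IC.cardG_ne h
  · exact Pool.Agent.H254R3.IN.IsIrr.one_ne hθ h

theorem bx_inj [Fintype A] [Fintype B] {f f' : A → ℂ} {g g' : B → ℂ} (hf : IsIrr f)
    (hf' : IsIrr f') (hg : IsIrr g) (hg' : IsIrr g') (h : bx f g = bx f' g') :
    f = f' ∧ g = g' := by
  have h1 : IC.B (bx f g) (bx f' g') = 1 := by
    rw [← h]
    have h2 := IC.B_irr (chi := bx f g) (psi := bx f g) (bx_irr hf hg) (bx_irr hf hg)
    rwa [if_pos rfl] at h2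
  rw [B_bx] at h1
  constructor
  · by_contra hne
    have h2 := IC.B_irr (chi := f) (psi := f') hf hf'
    rw [if_neg hne] at h2
    rw [h2, zero_mul] at h1
    exact zero_ne_one h1
  · by_contra hne
    have h2 := IC.B_irr (chi := g) (psi := g') hg hg'
    rw [if_neg hne] at h2
    rw [h2, mul_zero] at h1
    exact zero_ne_one h1

theorem conj_prod (a a' : A) (b b' : B) : IsConj (a, b) (a', b') ↔ IsConj a a' ∧ IsConj b b' := by
  rw [isConj_iff, isConj_iff, isConj_iff]
  constructor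
  · rintro ⟨c, hc⟩
    have h1 := congrArg Prod.fst hc
    have h2 := congrArg Prod.snd hc
    exact ⟨⟨c.1, h1⟩, ⟨c.2, h2⟩⟩
  · rintro ⟨⟨c, hc⟩, ⟨e, he⟩⟩
    exact ⟨(c, e), Prod.ext hc he⟩

theorem omega_bx (f : A → ℂ) (g : B → ℂ) (a : A) (b : B) :
    omega (bx f g) (a, b) = omega f a * omega g b := by
  unfold omega
  have h1 : Nat.card {y : A × B // IsConj (a, b) y} =
      Nat.card {y : A // IsConj a y} * Nat.card {y : B // IsConj b y} := by
    rw [← Nat.card_prod]
    apply Nat.card_congr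
    exact
      { toFun := fun y => (⟨y.1.1, ((conj_prod a y.1.1 b y.1.2).1 y.2).1⟩,
          ⟨y.1.2, ((conj_prod a y.1.1 b y.1.2).1 y.2).2⟩)
        invFun := fun y => ⟨(y.1.1, y.2.1), (conj_prod a y.1.1 b y.2.1).2 ⟨y.1.2, y.2.2⟩⟩
        left_inv := fun _ => rfl
        right_inv := fun _ => rfl }
  rw [h1]
  unfold bx
  simp only [Prod.fst_one, Prod.snd_one]
  push_cast
  rw [mul_mul_mul_comm, mul_div_mul_comm]

theorem omega_one {f : A → ℂ} (hf : f 1 ≠ 0) : omega f (1 : A) = 1 := by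
  unfold omega
  have h1 : Nat.card {y : A // IsConj (1 : A) y} = 1 := by
    rw [Nat.card_eq_one_iff_exists]
    refine ⟨⟨1, IsConj.refl 1⟩, fun y => Subtype.ext ?_⟩
    have := y.2
    rw [isConj_iff] at this
    obtain ⟨c, hc⟩ := this
    rw [← hc]
    simp
  rw [h1, Nat.cast_one, one_mul, div_self hf]

end box

end Pool.Agent.Q66.OS
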